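import Pool.Agent.Q131.LGTree

/-!
# The 6/7 bound for the L-domination game fails for trees (MP_fca4fc_co)
-/

namespace Pool.Agent.Results.MP_fca4fc_co.TreeCounterexamples

open Q131.LG

/-- (1) For every finite graph `G` the graph obtained from `G` by attaching a copy of the tree
`gadget` (with eleven vertices) to each vertex satisfies `γ_Lg ≥ ⌊19 |V(G)| / 2⌋`.
(2) For every `k ≥ 1` there is a tree `T` with `22 k` vertices and `γ_Lg(T) ≥ 19 k > (6/7) 22 k`.
(3) Hence the 6/7 bound fails, even for trees. -/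
theorem result :
    (∀ (V : Type) [Fintype V] [DecidableEq V] (G : SimpleGraph V),
      19 * Fintype.card V / 2 ≤ gammaLg (attachGadgets G)) ∧
    (∀ k : ℕ, 1 ≤ k → ∃ T : SimpleGraph (Fin (2 * k) × Fin 11), T.IsTree ∧
      Fintype.card (Fin (2 * k) × Fin 11) = 22 * k ∧ 19 * k ≤ gammaLg T ∧
      6 * (22 * k) < 7 * gammaLg T) ∧
    ¬ ∀ (V : Type) [Fintype V] [DecidableEq V] (G : SimpleGraph V),
      G.IsTree → (∀ v, ∃ w, G.Adj v w) → 7 * gammaLg G ≤ 6 * Fintype.card V := by
  have h2 : ∀ k : ℕ, 1 ≤ k → ∃ T : SimpleGraph (Fin (2 * k) × Fin 11), T.IsTree ∧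
      Fintype.card (Fin (2 * k) × Fin 11) = 22 * k ∧ 19 * k ≤ gammaLg T ∧
      6 * (22 * k) < 7 * gammaLg T := by
    intro k hk
    haveI : Nonempty (Fin (2 * k)) := ⟨⟨0, by omega⟩⟩
    obtain ⟨T, hT⟩ := exists_tree (Fin (2 * k))
    have h := gammaLg_attach T
    rw [Fintype.card_fin] at h
    have hc : Fintype.card (Fin (2 * k) × Fin 11) = 22 * k := by
      rw [Fintype.card_prod, Fintype.card_fin, Fintype.card_fin]
      omega
    exact ⟨attachGadgets T, attach_isTree hT, hc, by omega, by omega⟩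
  refine ⟨fun V _ _ G => gammaLg_attach G, h2, ?_⟩
  intro hall
  obtain ⟨T, hT, hc, _, hlt⟩ := h2 1 le_rfl
  have h := hall _ T hT ?_
  · rw [hc] at h
    omega
  · intro v
    haveI : Nontrivial (Fin (2 * 1) × Fin 11) := ⟨⟨(0, 0), (0, 1), by simp⟩⟩
    exact hT.connected.preconnected.exists_adj_of_nontrivial v

end Pool.Agent.Results.MP_fca4fc_co.TreeCounterexamples
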